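import Mathlib

set_option autoImplicit false

/-!
# Non-negativity of the truncated theta series with triangular exponents

For `k ≥ 1` let `F_k = ∏_{i≥1} (1 + q^i) * ∑_{n≥0} (-1)^{T_n} q^{T_{n+2k}}`.  We prove that every
coefficient of `F_k` is non-negative.

Write `θ_j = ∑_{n≥0} (-1)^{T_n} q^{T_n + j n}`, so that `F_k = q^{T_{2k}} R θ_{2k}` where
`R = ∏ (1 + q^i) = ∏_{o odd} 1 / (1 - q^o)`, and `θ_j = 1 - q^{j+1} - q^{2j+3} θ_{j+2}`.
For even `j ≥ 2` put `L_j = R (1 - q^{j-1}) / (1 + q^{2j-1})`.  We prove the two-sided bound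
`L_j ≤ R θ_j ≤ L_{j+2}` (coefficientwise).
-/

namespace Pool.Agent.Results.MP_1cbc82_co.TruncTheta

open PowerSeries PowerSeries.WithPiTopology

/-- The `n`-th triangular number. -/
def T (n : ℕ) : ℕ := n * (n + 1) / 2

/-- `F_k = ∏_{i≥1} (1 + q^i) * ∑_{n≥0} (-1)^{T_n} q^{T_{n+2k}}`, an infinite product and an infinite
sum in `ℤ⟦X⟧` with its usual topology of coefficientwise convergence. -/
noncomputable def F (k : ℕ) : ℤ⟦X⟧ :=
  (∏' i : ℕ, (1 + X ^ (i + 1))) * ∑' n : ℕ, (-1) ^ T n * X ^ T (n + 2 * k)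

/-! ### Nonnegative power series -/

/-- all coefficients nonnegative -/
def NN (f : ℤ⟦X⟧) : Prop := ∀ n, 0 ≤ coeff n f

theorem NN.add {f g : ℤ⟦X⟧} (hf : NN f) (hg : NN g) : NN (f + g) := fun n => by
  rw [map_add]; exact add_nonneg (hf n) (hg n)

theorem NN.mul {f g : ℤ⟦X⟧} (hf : NN f) (hg : NN g) : NN (f * g) := fun n => by
  rw [coeff_mul]; exact Finset.sum_nonneg fun p _ => mul_nonneg (hf _) (hg _)

theorem NN.one : NN (1 : ℤ⟦X⟧) := fun n => by
  rw [coeff_one]; split_ifs <;> simp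

theorem NN.zero : NN (0 : ℤ⟦X⟧) := fun n => by simp

theorem NN.X : NN (PowerSeries.X : ℤ⟦X⟧) := fun n => by
  rw [coeff_X]; split_ifs <;> simp

theorem NN.pow {f : ℤ⟦X⟧} (hf : NN f) (m : ℕ) : NN (f ^ m) := by
  induction m with
  | zero => simpa using NN.one
  | succ m ih => rw [pow_succ]; exact ih.mul hf

theorem NN.Xp (m : ℕ) : NN (PowerSeries.X ^ m : ℤ⟦X⟧) := NN.X.pow m

theorem NN.two : NN (2 : ℤ⟦X⟧) := by
  have : (2 : ℤ⟦X⟧) = 1 + 1 := by norm_num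
  rw [this]; exact NN.one.add NN.one

theorem NN.prod {ι : Type*} (s : Finset ι) (f : ι → ℤ⟦X⟧) (h : ∀ i ∈ s, NN (f i)) :
    NN (∏ i ∈ s, f i) := by
  classical
  induction s using Finset.induction_on with
  | empty => simpa using NN.one
  | insert a s ha ih =>
    rw [Finset.prod_insert ha]
    exact (h a (Finset.mem_insert_self a s)).mul
      (ih fun i hi => h i (Finset.mem_insert_of_mem hi))

/-! ### The geometric series `1 / (1 - X^m)` -/

/-- `1 / (1 - X^m)` -/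
noncomputable def h (m : ℕ) : ℤ⟦X⟧ := PowerSeries.mk fun n => if m ∣ n then 1 else 0

theorem NN.h (m : ℕ) : NN (h m) := fun n => by
  rw [TruncTheta.h, coeff_mk]; split_ifs <;> simp

theorem one_sub_mul_h {m : ℕ} (hm : 0 < m) : (1 - X ^ m) * h m = 1 := by
  ext n
  rw [sub_mul, one_mul, map_sub, coeff_X_pow_mul', h, coeff_mk, coeff_one]
  by_cases hn : n = 0
  · subst hn
    simp [hm.ne']
  · rw [if_neg hn]
    by_cases hmn : m ≤ n
    · rw [if_pos hmn, coeff_mk]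
      by_cases hd : m ∣ n
      · have : m ∣ n - m := Nat.dvd_sub hd (dvd_refl m)
        simp [hd, this]
      · have : ¬ m ∣ n - m := fun h' => hd (by
          have := (Nat.dvd_add h' (dvd_refl m))
          rwa [Nat.sub_add_cancel hmn] at this)
        simp [hd, this]
    · rw [if_neg hmn]
      have : ¬ m ∣ n := fun h' => hmn (Nat.le_of_dvd (Nat.pos_of_ne_zero hn) h')
      simp [this]

/-- `1 / (1 + X^m)` -/
noncomputable def g (m : ℕ) : ℤ⟦X⟧ := (1 - X ^ m) * h (2 * m)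

theorem one_add_mul_g {m : ℕ} (hm : 0 < m) : (1 + X ^ m) * g m = 1 := by
  have h1 := one_sub_mul_h (m := 2 * m) (by omega)
  calc (1 + X ^ m) * g m = (1 - X ^ (2 * m)) * h (2 * m) := by rw [g]; ring
    _ = 1 := h1

/-! ### The product `R = ∏ (1 + X^i)` -/

/-- the partial products -/
noncomputable def RR (M : ℕ) : ℤ⟦X⟧ := ∏ i ∈ Finset.range M, (1 + X ^ (i + 1))

theorem dvd_prod_sub_one (N : ℕ) (s : Finset ℕ) (hs : ∀ i ∈ s, N ≤ i) :
    (X : ℤ⟦X⟧) ^ N ∣ ∏ i ∈ s, (1 + X ^ (i + 1)) - 1 := by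
  classical
  induction s using Finset.induction_on with
  | empty => simp
  | insert a s ha ih =>
    rw [Finset.prod_insert ha]
    have h1 := ih fun i hi => hs i (Finset.mem_insert_of_mem hi)
    have h2 : (X : ℤ⟦X⟧) ^ N ∣ X ^ (a + 1) :=
      pow_dvd_pow _ ((hs a (Finset.mem_insert_self a s)).trans (Nat.le_succ a))
    have : (1 + X ^ (a + 1)) * ∏ i ∈ s, (1 + X ^ (i + 1) : ℤ⟦X⟧) - 1
        = (∏ i ∈ s, (1 + X ^ (i + 1)) - 1) + X ^ (a + 1) * ∏ i ∈ s, (1 + X ^ (i + 1)) := by ring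
    rw [this]
    exact dvd_add h1 (h2.mul_right _)

theorem coeff_eq_of_dvd {f g : ℤ⟦X⟧} {N n : ℕ} (h : (X : ℤ⟦X⟧) ^ N ∣ f - g) (hn : n < N) :
    coeff n f = coeff n g := by
  have := (X_pow_dvd_iff.mp h) n hn
  rw [map_sub] at this
  linarith

theorem dvd_sub_of_subset (N : ℕ) (s : Finset ℕ) (hs : Finset.range N ⊆ s) :
    (X : ℤ⟦X⟧) ^ N ∣ ∏ i ∈ s, (1 + X ^ (i + 1)) - RR N := by
  classical
  rw [← Finset.prod_sdiff hs, RR]
  have h1 := dvd_prod_sub_one N (s \ Finset.range N) fun i hi => by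
    rw [Finset.mem_sdiff, Finset.mem_range] at hi
    omega
  have : (∏ x ∈ s \ Finset.range N, (1 + X ^ (x + 1) : ℤ⟦X⟧)) * ∏ x ∈ Finset.range N, (1 + X ^ (x + 1))
      - ∏ i ∈ Finset.range N, (1 + X ^ (i + 1))
      = (∏ x ∈ s \ Finset.range N, (1 + X ^ (x + 1) : ℤ⟦X⟧) - 1) * ∏ x ∈ Finset.range N, (1 + X ^ (x + 1)) := by
    ring
  rw [this]
  exact h1.mul_right _

/-- the infinite product, as an explicit series -/
noncomputable def R : ℤ⟦X⟧ := PowerSeries.mk fun n => coeff n (RR (n + 1))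

theorem dvd_R_sub (N : ℕ) : (X : ℤ⟦X⟧) ^ N ∣ R - RR N := by
  rw [X_pow_dvd_iff]
  intro m hm
  rw [map_sub, R, coeff_mk, sub_eq_zero]
  symm
  have := dvd_sub_of_subset (m + 1) (Finset.range N) (by
    intro x hx; rw [Finset.mem_range] at *; omega)
  exact coeff_eq_of_dvd (N := m + 1) this (Nat.lt_succ_self m)

theorem hasProd_R : HasProd (fun i : ℕ => (1 + X ^ (i + 1) : ℤ⟦X⟧)) R := by
  rw [HasProd, tendsto_iff_coeff_tendsto]
  intro d
  apply tendsto_const_nhds.congr'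
  simp only [SummationFilter.unconditional_filter]
  filter_upwards [Filter.eventually_ge_atTop (Finset.range (d + 1))] with s hs
  rw [R, coeff_mk]
  exact (coeff_eq_of_dvd (N := d + 1) (dvd_sub_of_subset (d + 1) s hs) (Nat.lt_succ_self d)).symm

theorem multipliable_R : Multipliable (fun i : ℕ => (1 + X ^ (i + 1) : ℤ⟦X⟧)) := hasProd_R.multipliable

theorem tprod_R : ∏' i : ℕ, (1 + X ^ (i + 1) : ℤ⟦X⟧) = R := hasProd_R.tprod_eq

/-! ### Euler: `R = ∏ 1 / (1 - X^odd)` -/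

theorem euler_aux (m : ℕ) :
    RR (2 * m) * (∏ i ∈ Finset.range m, (1 - X ^ (2 * i + 1))) *
      (∏ i ∈ Finset.range m, (1 - X ^ (2 * i + 2)))
      = ∏ i ∈ Finset.range (2 * m), (1 - X ^ (2 * i + 2) : ℤ⟦X⟧) := by
  induction m with
  | zero => simp [RR]
  | succ m ih =>
    rw [show 2 * (m + 1) = 2 * m + 1 + 1 by ring, Finset.prod_range_succ _ (2 * m + 1),
      Finset.prod_range_succ _ (2 * m), ← ih, Finset.prod_range_succ _ m,
      Finset.prod_range_succ _ m, RR, RR, Finset.prod_range_succ _ (2 * m + 1),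
      Finset.prod_range_succ _ (2 * m)]
    ring

theorem prod_one_sub_ne_zero (m : ℕ) :
    (∏ i ∈ Finset.range m, (1 - X ^ (2 * i + 2) : ℤ⟦X⟧)) ≠ 0 := by
  rw [Finset.prod_ne_zero_iff]
  intro i _ h0
  have := congrArg constantCoeff h0
  simp at this

theorem euler_trunc (m : ℕ) :
    RR (2 * m) * (∏ i ∈ Finset.range m, (1 - X ^ (2 * i + 1)))
      = ∏ i ∈ Finset.range m, (1 - X ^ (2 * (m + i) + 2) : ℤ⟦X⟧) := by
  apply mul_right_cancel₀ (prod_one_sub_ne_zero m)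
  rw [euler_aux, two_mul m, Finset.prod_range_add, mul_comm]

theorem dvd_prod_sub_one' (N : ℕ) (m : ℕ) (hN : N ≤ 2 * m + 2) :
    (X : ℤ⟦X⟧) ^ N ∣ ∏ i ∈ Finset.range m, (1 - X ^ (2 * (m + i) + 2)) - 1 := by
  have : ∀ r : ℕ, (X : ℤ⟦X⟧) ^ N ∣ ∏ i ∈ Finset.range r, (1 - X ^ (2 * (m + i) + 2)) - 1 := by
    intro r
    induction r with
    | zero => simp
    | succ r ih =>
      rw [Finset.prod_range_succ]
      have h2 : (X : ℤ⟦X⟧) ^ N ∣ X ^ (2 * (m + r) + 2) := pow_dvd_pow _ (by omega)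
      have : (∏ i ∈ Finset.range r, (1 - X ^ (2 * (m + i) + 2) : ℤ⟦X⟧)) * (1 - X ^ (2 * (m + r) + 2)) - 1
        = (∏ i ∈ Finset.range r, (1 - X ^ (2 * (m + i) + 2) : ℤ⟦X⟧) - 1)
          - X ^ (2 * (m + r) + 2) * (∏ i ∈ Finset.range r, (1 - X ^ (2 * (m + i) + 2) : ℤ⟦X⟧)) := by
        ring
      rw [this]
      exact dvd_sub ih (h2.mul_right _)
  exact this m

/-- the truncated product of the geometric series over odd exponents -/
noncomputable def H (s : Finset ℕ) : ℤ⟦X⟧ := ∏ i ∈ s, h (2 * i + 1)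

theorem NN.H (s : Finset ℕ) : NN (H s) := NN.prod _ _ fun _ _ => NN.h _

theorem prod_mul_H (s : Finset ℕ) : (∏ i ∈ s, (1 - X ^ (2 * i + 1))) * H s = 1 := by
  rw [H, ← Finset.prod_mul_distrib]
  exact Finset.prod_eq_one fun i _ => one_sub_mul_h (by omega)

theorem dvd_R_sub_H (m : ℕ) : (X : ℤ⟦X⟧) ^ (2 * m) ∣ R - H (Finset.range m) := by
  have h1 := dvd_R_sub (2 * m)
  have h2 : RR (2 * m) - H (Finset.range m)
      = (∏ i ∈ Finset.range m, (1 - X ^ (2 * (m + i) + 2)) - 1) * H (Finset.range m) := by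
    rw [← euler_trunc, sub_mul, one_mul, mul_assoc, prod_mul_H, mul_one]
  have h3 : (X : ℤ⟦X⟧) ^ (2 * m) ∣ RR (2 * m) - H (Finset.range m) := by
    rw [h2]
    exact (dvd_prod_sub_one' (2 * m) m (by omega)).mul_right _
  have := dvd_add h1 h3
  rwa [sub_add_sub_cancel] at this

/-- Key positivity: dividing out any finite set of odd factors keeps nonnegativity. -/
theorem NN_R_mul (S : Finset ℕ) : NN (R * ∏ i ∈ S, (1 - X ^ (2 * i + 1))) := by
  classical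
  intro n
  obtain ⟨m, hm1, hm2⟩ : ∃ m, n < 2 * m ∧ S ⊆ Finset.range m := by
    refine ⟨n + 1 + S.sup id + 1, by omega, fun x hx => ?_⟩
    rw [Finset.mem_range]
    have : id x ≤ S.sup id := Finset.le_sup hx
    simp only [id] at this
    change _ ≤ _ at this
    have h' : x ≤ S.sup id := this
    omega
  have h1 : (X : ℤ⟦X⟧) ^ (2 * m) ∣ R * (∏ i ∈ S, (1 - X ^ (2 * i + 1)))
      - H (Finset.range m \ S) := by
    have : H (Finset.range m \ S) = H (Finset.range m) * ∏ i ∈ S, (1 - X ^ (2 * i + 1)) := by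
      have h3 : H (Finset.range m) = H (Finset.range m \ S) * H S := by
        rw [H, H, H, Finset.prod_sdiff hm2]
      rw [h3, mul_assoc, mul_comm (H S), prod_mul_H, mul_one]
    rw [this, ← sub_mul]
    exact (dvd_R_sub_H m).mul_right _
  rw [coeff_eq_of_dvd h1 hm1]
  exact NN.H _ n

theorem NN_R_list (l : List ℕ) (hl : l.Nodup) :
    NN (R * (l.map fun i => (1 - X ^ (2 * i + 1) : ℤ⟦X⟧)).prod) := by
  classical
  have := NN_R_mul l.toFinset
  rwa [List.prod_toFinset _ hl] at this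

/-! ### The partial theta series -/

/-- `θ_j = ∑_{n≥0} (-1)^{T_n} q^{T_n + j n}` -/
noncomputable def θ (j : ℕ) : ℤ⟦X⟧ := ∑' n : ℕ, (-1) ^ T n * X ^ (T n + j * n)

theorem T_succ (n : ℕ) : T (n + 1) = T n + (n + 1) := by
  unfold T
  have h1 : (n + 1) * (n + 1 + 1) = n * (n + 1) + 2 * (n + 1) := by ring
  rw [h1, Nat.add_mul_div_left _ _ (by norm_num)]

theorem T_zero : T 0 = 0 := rfl

theorem le_T (n : ℕ) : n ≤ T n := by
  induction n with
  | zero => simp [T_zero]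
  | succ n ih => rw [T_succ]; omega

theorem T_add (n m : ℕ) : T (n + m) = T n + m * n + T m := by
  induction m with
  | zero => simp [T_zero]
  | succ m ih =>
    rw [← add_assoc, T_succ, ih, T_succ]; ring

theorem summable_of_le (c : ℕ → ℤ⟦X⟧) (e : ℕ → ℕ) (he : ∀ n, n ≤ e n) :
    Summable fun n => c n * X ^ e n := by
  rw [summable_iff_summable_coeff]
  intro d
  apply summable_of_hasFiniteSupport
  apply (Set.finite_Iic d).subset
  intro n hn
  rw [Set.mem_Iic]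
  by_contra hlt
  apply hn
  show coeff d (c n * X ^ e n) = 0
  rw [coeff_mul_X_pow', if_neg]
  have := he n
  omega

theorem summable_θ (j : ℕ) : Summable fun n : ℕ => ((-1) ^ T n * X ^ (T n + j * n) : ℤ⟦X⟧) :=
  summable_of_le _ _ fun n => (le_T n).trans (Nat.le_add_right _ _)

theorem summable_F (k : ℕ) : Summable fun n : ℕ => ((-1) ^ T n * X ^ T (n + 2 * k) : ℤ⟦X⟧) :=
  summable_of_le _ _ fun _ => (Nat.le_add_right _ _).trans (le_T _)

theorem θ_rec (j : ℕ) : θ j = 1 - X ^ (j + 1) - X ^ (2 * j + 3) * θ (j + 2) := by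
  rw [θ, ← (summable_θ j).sum_add_tsum_nat_add 2, θ, ← (summable_θ (j + 2)).tsum_mul_left]
  rw [sub_eq_add_neg, ← tsum_neg]
  congr 1
  · simp [Finset.sum_range_succ, T]; ring
  · apply tsum_congr
    intro n
    have h1 : T (n + 2) = T n + 2 * n + 3 := by rw [T_add]; rfl
    rw [h1, pow_add, pow_add, pow_mul]
    ring

theorem F_eq (k : ℕ) : F k = X ^ T (2 * k) * (R * θ (2 * k)) := by
  rw [F, tprod_R, θ]
  have : (∑' n : ℕ, (-1) ^ T n * X ^ T (n + 2 * k) : ℤ⟦X⟧)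
      = X ^ T (2 * k) * ∑' n : ℕ, (-1) ^ T n * X ^ (T n + 2 * k * n) := by
    rw [← (summable_θ (2 * k)).tsum_mul_left]
    apply tsum_congr
    intro n
    rw [T_add, pow_add]
    ring
  rw [this]
  ring

/-! ### The two-sided bound -/

/-- `f_i = R θ_{2i+2}` -/
noncomputable def f (i : ℕ) : ℤ⟦X⟧ := R * θ (2 * i + 2)

/-- `L_i = R (1 - X^{2i+1}) / (1 + X^{4i+3})` -/
noncomputable def L (i : ℕ) : ℤ⟦X⟧ := R * (1 - X ^ (2 * i + 1)) * g (4 * i + 3)

theorem f_rec (i : ℕ) : f i = R * (1 - X ^ (2 * i + 3)) - X ^ (4 * i + 7) * f (i + 1) := by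
  rw [f, f, θ_rec, show 2 * (i + 1) + 2 = 2 * i + 2 + 2 by ring]
  ring

theorem upper_id (i : ℕ) : L (i + 1) - f i = X ^ (4 * i + 7) * (f (i + 1) - L (i + 1)) := by
  have h1 := one_add_mul_g (m := 4 * (i + 1) + 3) (by omega)
  rw [f_rec i]
  have h2 : L (i + 1) * (1 + X ^ (4 * i + 7)) = R * (1 - X ^ (2 * i + 3)) := by
    rw [L]
    rw [show 4 * i + 7 = 4 * (i + 1) + 3 by ring, show 2 * i + 3 = 2 * (i + 1) + 1 by ring]
    linear_combination (R * (1 - X ^ (2 * (i + 1) + 1))) * h1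
  linear_combination h2

/-- The polynomial `K'`. -/
noncomputable def K (i : ℕ) : ℤ⟦X⟧ :=
  (1 - X ^ (4 * i + 5)) * (1 - X ^ (4 * i + 9))
    + X ^ (2 * i + 2) * (1 + X ^ 2) * ((1 - X ^ (2 * i + 5)) + X ^ (2 * i + 7) * (1 - X ^ (2 * i)))

/-- `Ω_i` -/
noncomputable def Om (i : ℕ) : ℤ⟦X⟧ :=
  R * (1 - X) * (1 + X) * K i * g (4 * i + 3) * g (4 * i + 11)

theorem lower_id (i : ℕ) :
    f i - L i = X ^ (2 * i + 1) * Om i + X ^ (4 * i + 7) * (L (i + 2) - f (i + 1)) := by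
  have h1 := one_add_mul_g (m := 4 * i + 3) (by omega)
  have h2 := one_add_mul_g (m := 4 * i + 11) (by omega)
  rw [f_rec i, Om, L, L, show 4 * (i + 2) + 3 = 4 * i + 11 by ring, K]
  set a := g (4 * i + 3)
  set b := g (4 * i + 11)
  linear_combination (R * (-(1 - X ^ (2 * i + 3)) + X ^ (4 * i + 7) * (1 - X ^ (2 * i + 5)) * b)) * h1
    + (R * (-(1 - X ^ (2 * i + 3)) * ((1 + X ^ (4 * i + 3)) * a) + (1 - X ^ (2 * i + 1)) * a)) * h2

/-- The product of `R (1 - X) (1 - X^{4i+3}) (1 - X^{4i+11})` -/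
noncomputable def Z (i : ℕ) : ℤ⟦X⟧ :=
  R * (1 - X) * (1 - X ^ (4 * i + 3)) * (1 - X ^ (4 * i + 11))

theorem Z_mul_list (i : ℕ) (l : List ℕ) (hl : (0 :: (2 * i + 1) :: (2 * i + 5) :: l).Nodup) :
    NN (Z i * (l.map fun i => (1 - X ^ (2 * i + 1) : ℤ⟦X⟧)).prod) := by
  have h1 := NN_R_list _ hl
  simp only [List.map_cons, List.prod_cons] at h1
  have h2 : Z i * (l.map fun i => (1 - X ^ (2 * i + 1) : ℤ⟦X⟧)).prod
    = R * ((1 - X ^ (2 * 0 + 1)) * ((1 - X ^ (2 * (2 * i + 1) + 1)) *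
      ((1 - X ^ (2 * (2 * i + 5) + 1)) * (l.map fun i => (1 - X ^ (2 * i + 1) : ℤ⟦X⟧)).prod))) := by
    rw [Z]; ring
  rw [h2]; exact h1

theorem Z_mul_one (i : ℕ) : NN (Z i) := by
  have := Z_mul_list i [] (by simp)
  simpa using this

theorem Z_mul_1 (i a : ℕ) (h : (0 :: (2 * i + 1) :: (2 * i + 5) :: [a]).Nodup) :
    NN (Z i * (1 - X ^ (2 * a + 1))) := by
  have := Z_mul_list i [a] h
  simpa using this

theorem Z_mul_2 (i a b : ℕ) (h : (0 :: (2 * i + 1) :: (2 * i + 5) :: [a, b]).Nodup) :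
    NN (Z i * ((1 - X ^ (2 * a + 1)) * (1 - X ^ (2 * b + 1)))) := by
  have := Z_mul_list i [a, b] h
  simpa using this

theorem Z_add {z : ℤ⟦X⟧} {a b : ℕ} (ha : NN (z * (1 - X ^ a))) (hb : NN (z * (1 - X ^ b))) :
    NN (z * (1 - X ^ (a + b))) := by
  have : z * (1 - X ^ (a + b)) = z * (1 - X ^ a) + X ^ a * (z * (1 - X ^ b)) := by ring
  rw [this]
  exact ha.add ((NN.Xp a).mul hb)

theorem Z_semigroup {z : ℤ⟦X⟧} (h3 : NN (z * (1 - X ^ 3))) (h5 : NN (z * (1 - X ^ 5))) (n : ℕ) :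
    NN (z * (1 - X ^ (n + 8))) := by
  have h6 : NN (z * (1 - X ^ 6)) := by simpa only [Nat.reduceAdd] using Z_add h3 h3
  induction n using Nat.strong_induction_on with
  | _ n ih =>
    match n with
    | 0 => simpa only [Nat.reduceAdd] using Z_add h3 h5
    | 1 => simpa only [Nat.reduceAdd] using Z_add h6 h3
    | 2 => simpa only [Nat.reduceAdd] using Z_add h5 h5
    | n + 3 =>
      have := Z_add (ih n (by omega)) h3
      rwa [show n + 8 + 3 = n + 3 + 8 by ring] at this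

theorem NN_Z_K_ge (i : ℕ) (hi : 3 ≤ i) : NN (Z i * K i) := by
  have h3 : NN (Z i * (1 - X ^ 3)) := Z_mul_1 i 1 (by simp <;> omega)
  have h5 : NN (Z i * (1 - X ^ 5)) := Z_mul_1 i 2 (by simp)
  have hA : NN (Z i * ((1 - X ^ (4 * i + 5)) * (1 - X ^ (4 * i + 9)))) := by
    have := Z_mul_2 i (2 * i + 2) (2 * i + 4) (by simp)
    rwa [show 2 * (2 * i + 2) + 1 = 4 * i + 5 by ring,
      show 2 * (2 * i + 4) + 1 = 4 * i + 9 by ring] at this
  have hB : NN (Z i * (1 - X ^ (2 * i + 5))) := by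
    have := Z_mul_1 i (i + 2) (by simp <;> omega)
    rwa [show 2 * (i + 2) + 1 = 2 * i + 5 by ring] at this
  have hC : NN (Z i * (1 - X ^ (2 * i))) := by
    rcases Nat.lt_or_ge i 4 with h | h
    · have : i = 3 := by omega
      subst this
      simpa only [Nat.reduceAdd, Nat.reduceMul] using Z_add h3 h3
    · have := Z_semigroup h3 h5 (2 * i - 8)
      rwa [show 2 * i - 8 + 8 = 2 * i by omega] at this
  have e : Z i * K i = Z i * ((1 - X ^ (4 * i + 5)) * (1 - X ^ (4 * i + 9)))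
      + X ^ (2 * i + 2) * (1 + X ^ 2) * (Z i * (1 - X ^ (2 * i + 5))
        + X ^ (2 * i + 7) * (Z i * (1 - X ^ (2 * i)))) := by
    rw [K]; ring
  rw [e]
  exact hA.add (((NN.Xp _).mul (NN.one.add (NN.Xp 2))).mul (hB.add ((NN.Xp _).mul hC)))

theorem NN_Z_K_0 : NN (Z 0 * K 0) := by
  have h5 : NN (Z 0 * (1 - X ^ 5)) := Z_mul_1 0 2 (by simp)
  have hA : NN (Z 0 * ((1 - X ^ 5) * (1 - X ^ 9))) := Z_mul_2 0 2 4 (by simp)
  have e : Z 0 * K 0 = Z 0 * ((1 - X ^ 5) * (1 - X ^ 9)) + X ^ 2 * (1 + X ^ 2) * (Z 0 * (1 - X ^ 5)) := by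
    rw [K]; ring
  rw [e]
  exact hA.add (((NN.Xp _).mul (NN.one.add (NN.Xp 2))).mul h5)

theorem NN_Z_K_1 : NN (Z 1 * K 1) := by
  have h3 : NN (Z 1 * (1 - X ^ 3)) := Z_mul_1 1 1 (by simp)
  have h5 : NN (Z 1 * (1 - X ^ 5)) := Z_mul_1 1 2 (by simp)
  have h35 : NN (Z 1 * ((1 - X ^ 3) * (1 - X ^ 5))) := Z_mul_2 1 1 2 (by simp)
  have e : Z 1 * K 1 = (1 + X ^ 4 + X ^ 6) * (Z 1 * (1 - X ^ 5)) + X ^ 5 * (Z 1 * (1 - X ^ 3))
      + (X ^ 8 + X ^ 11 + X ^ 14) * (Z 1 * ((1 - X ^ 3) * (1 - X ^ 5))) := by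
    rw [K]; ring
  rw [e]
  exact ((((NN.one.add (NN.Xp _)).add (NN.Xp _)).mul h5).add ((NN.Xp _).mul h3)).add
    ((((NN.Xp _).add (NN.Xp _)).add (NN.Xp _)).mul h35)

theorem NN_Z_K_2 : NN (Z 2 * K 2) := by
  have h3 : NN (Z 2 * (1 - X ^ 3)) := Z_mul_1 2 1 (by simp)
  have h5 : NN (Z 2 * (1 - X ^ 5)) := Z_mul_1 2 2 (by simp)
  have h35 : NN (Z 2 * ((1 - X ^ 3) * (1 - X ^ 5))) := Z_mul_2 2 1 2 (by simp)
  have e : Z 2 * K 2 = (1 + X ^ 6 + X ^ 8 + X ^ 9 + X ^ 12 + X ^ 14 + X ^ 20) * (Z 2 * (1 - X ^ 3))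
      + X ^ 3 * (Z 2 * (1 - X ^ 5))
      + (X ^ 8 + X ^ 11 + X ^ 11 + X ^ 14 + X ^ 16 + X ^ 17 + X ^ 19 + X ^ 22)
        * (Z 2 * ((1 - X ^ 3) * (1 - X ^ 5))) := by
    rw [K]; ring
  rw [e]
  refine ((NN.mul ?_ h3).add ((NN.Xp _).mul h5)).add (NN.mul ?_ h35)
  · exact (((((NN.one.add (NN.Xp _)).add (NN.Xp _)).add (NN.Xp _)).add (NN.Xp _)).add
      (NN.Xp _)).add (NN.Xp _)
  · exact (((((((NN.Xp _).add (NN.Xp _)).add (NN.Xp _)).add (NN.Xp _)).add (NN.Xp _)).add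
      (NN.Xp _)).add (NN.Xp _)).add (NN.Xp _)

theorem NN_Z_K (i : ℕ) : NN (Z i * K i) := by
  rcases Nat.lt_or_ge i 3 with hi | hi
  · interval_cases i
    · exact NN_Z_K_0
    · exact NN_Z_K_1
    · exact NN_Z_K_2
  · exact NN_Z_K_ge i hi

theorem NN_Om (i : ℕ) : NN (Om i) := by
  have e : Om i = (1 + X ^ 1) * (Z i * K i) * h (2 * (4 * i + 3)) * h (2 * (4 * i + 11)) := by
    rw [Om, Z, g, g]; ring
  rw [e]
  exact (((NN.one.add (NN.Xp 1)).mul (NN_Z_K i)).mul (NN.h _)).mul (NN.h _)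

theorem NN_L (i : ℕ) : NN (L i) := by
  have h1 := NN_R_list [i, 2 * i + 1] (by simp <;> omega)
  simp only [List.map_cons, List.prod_cons, List.map_nil, List.prod_nil, mul_one] at h1
  have e : L i = R * ((1 - X ^ (2 * i + 1)) * (1 - X ^ (2 * (2 * i + 1) + 1))) * h (2 * (4 * i + 3)) := by
    rw [L, g]; ring
  rw [e]
  exact h1.mul (NN.h _)

/-- the two-sided bound -/
theorem bounds (n : ℕ) : ∀ i, 0 ≤ coeff n (f i - L i) ∧ 0 ≤ coeff n (L (i + 1) - f i) := by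
  induction n using Nat.strong_induction_on with
  | _ n ih =>
    intro i
    constructor
    · rw [lower_id, map_add]
      refine add_nonneg (((NN.Xp _).mul (NN_Om i)) n) ?_
      rw [coeff_X_pow_mul']
      split_ifs with hn
      · exact (ih (n - (4 * i + 7)) (by omega) (i + 1)).2
      · exact le_refl 0
    · rw [upper_id, coeff_X_pow_mul']
      split_ifs with hn
      · exact (ih (n - (4 * i + 7)) (by omega) (i + 1)).1
      · exact le_refl 0

theorem NN_f (i : ℕ) : NN (f i) := fun n => by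
  have h1 := (bounds n i).1
  have h2 := NN_L i n
  rw [map_sub] at h1
  linarith

/-- **Main result.**  The infinite product and sum defining `F_k` converge, and for every `k ≥ 1`
every coefficient of `F_k` is non-negative. -/
theorem result :
    (Multipliable fun i : ℕ => (1 + X ^ (i + 1) : ℤ⟦X⟧)) ∧
    (∀ k : ℕ, Summable fun n : ℕ => ((-1) ^ T n * X ^ T (n + 2 * k) : ℤ⟦X⟧)) ∧
    ∀ k : ℕ, 1 ≤ k → ∀ N : ℕ, 0 ≤ coeff N (F k) := by
  refine ⟨multipliable_R, summable_F, fun k hk N => ?_⟩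
  obtain ⟨i, rfl⟩ : ∃ i, k = i + 1 := ⟨k - 1, by omega⟩
  rw [F_eq]
  exact (NN.Xp _).mul (NN_f i) N

end Pool.Agent.Results.MP_1cbc82_co.TruncTheta
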